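import Mathlib
import Pool.Agent.Q299.TypeSpace

set_option autoImplicit false

namespace Pool.Agent.Results.MP_970e84_lc.NotDetermined

open FirstOrder Filter Pool.Agent.Q299.TypeSpace Topology

/-- The automorphism group of `M` as a permutation group. -/
def AutGroup (L : FirstOrder.Language.{0, 0}) (M : Type) [L.Structure M] :
    Subgroup (Equiv.Perm M) where
  carrier := {σ | ∃ g : M ≃[L] M, ∀ x, σ x = g x}
  one_mem' := ⟨FirstOrder.Language.Equiv.refl L M, fun x => rfl⟩
  mul_mem' := by
    rintro g g' ⟨h, hh⟩ ⟨h', hh'⟩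
    exact ⟨h.comp h', fun x => by
      change g (g' x) = h (h' x)
      rw [hh, hh']⟩
  inv_mem' := by
    rintro g ⟨h, hh⟩
    refine ⟨h.symm, fun x => ?_⟩
    change g.symm x = h.symm x
    rw [Equiv.symm_apply_eq, hh]
    exact (h.apply_symm_apply x).symm

/-- The topology of pointwise convergence on the automorphism group. -/
@[reducible] def autTop (L : FirstOrder.Language.{0, 0}) (M : Type) [L.Structure M] :
    TopologicalSpace (AutGroup L M) :=
  TopologicalSpace.induced (fun (σ : AutGroup L M) (x : M) => σ.1 x)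
    (@Pi.topologicalSpace M (fun _ => M) (fun _ => ⊥))

/-- The automorphism groups of `M` and `M'` are isomorphic as topological groups. -/
def TopIso (L L' : FirstOrder.Language.{0, 0}) (M M' : Type) [L.Structure M] [L'.Structure M'] :
    Prop :=
  ∃ e : AutGroup L M ≃* AutGroup L' M',
    @Continuous _ _ (autTop L M) (autTop L' M') e ∧
    @Continuous _ _ (autTop L' M') (autTop L M) e.symm

/-- A Fraisse structure: a countably infinite ultrahomogeneous structure in a countable relational
language. -/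
structure IsFraisseStructure (L : FirstOrder.Language.{0, 0}) (M : Type) [L.Structure M] : Prop where
  relational : L.IsRelational
  countable_language : Countable (Σ n, L.Relations n)
  countable : Countable M
  infinite : Infinite M
  ultrahomogeneous : L.IsUltrahomogeneous M

/-- binary relation symbols indexed by `I` -/
inductive R2 (I : Type) : ℕ → Type
  | mk : I → R2 I 2

/-- the language with binary relation symbols indexed by `I` -/
def LI (I : Type) : FirstOrder.Language.{0, 0} := ⟨fun _ => Empty, R2 I⟩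

instance (I : Type) : (LI I).IsRelational := fun _ => inferInstanceAs (IsEmpty Empty)

/-- the structure on `ℤ` in which the relation `i` holds of `(x, y)` iff `y - x ∈ D i` -/
@[reducible] def str {I : Type} (D : I → Set ℤ) : (LI I).Structure ℤ where
  funMap := fun f => (f : Empty).elim
  RelMap := fun r => match r with
    | .mk i => fun x => x 1 - x 0 ∈ D i

/-- the relation symbol -/
def rr {I : Type} (i : I) : (LI I).Relations 2 := R2.mk i

theorem rel_iff {I : Type} (D : I → Set ℤ) (i : I) (x y : ℤ) :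
    @FirstOrder.Language.Structure.RelMap _ _ (str D) 2 (rr i) ![x, y] ↔ y - x ∈ D i := Iff.rfl

theorem rel_iff' {I : Type} (D : I → Set ℤ) (i : I) (x : Fin 2 → ℤ) :
    @FirstOrder.Language.Structure.RelMap _ _ (str D) 2 (rr i) x ↔ x 1 - x 0 ∈ D i := Iff.rfl

/-- translations are automorphisms -/
def tr {I : Type} (D : I → Set ℤ) (t : ℤ) : @FirstOrder.Language.Equiv (LI I) ℤ ℤ (str D) (str D) :=
  letI := str D
  { toEquiv := Equiv.addRight t
    map_fun' := fun {n} f => (f : Empty).elim
    map_rel' := by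
      rintro n ⟨i⟩ x
      change (x 1 + t) - (x 0 + t) ∈ D i ↔ x 1 - x 0 ∈ D i
      rw [add_sub_add_right_eq_sub] }

theorem tr_apply {I : Type} (D : I → Set ℤ) (t x : ℤ) : letI := str D; tr D t x = x + t := rfl

theorem tr_symm_apply {I : Type} (D : I → Set ℤ) (t x : ℤ) :
    letI := str D; (tr D t).symm x = x - t := rfl

theorem aut_tr {I : Type} (D : I → Set ℤ) (hD : ∀ k : ℤ, ∃ i, D i = {k})
    (g : @FirstOrder.Language.Equiv (LI I) ℤ ℤ (str D) (str D)) :
    letI := str D; ∀ x, g x = x + g 0 := by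
  let _ := str D
  intro x
  obtain ⟨i, hi⟩ := hD x
  have h1 := g.map_rel (rr i) ![0, x]
  rw [rel_iff'] at h1
  have h2 : g x - g 0 ∈ D i ↔ x - 0 ∈ D i := h1
  rw [hi] at h2
  have h3 : g x - g 0 = x := by
    have := h2.2 (by simp)
    simpa using this
  omega

theorem ultra {I : Type} (D : I → Set ℤ) (hD : ∀ k : ℤ, ∃ i, D i = {k}) :
    letI := str D; (LI I).IsUltrahomogeneous ℤ := by
  let _ := str D
  intro S hS f
  by_cases hne : Nonempty S
  · obtain ⟨s0⟩ := hne
    refine ⟨tr D (f s0 - s0), ?_⟩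
    ext x
    obtain ⟨i, hi⟩ := hD ((x : ℤ) - s0)
    have h1 := f.map_rel (rr i) ![s0, x]
    have h2 : f x - f s0 ∈ D i ↔ (x : ℤ) - s0 ∈ D i := h1
    rw [hi] at h2
    have h3 : f x - f s0 = x - s0 := by
      have := h2.2 (by simp)
      simpa using this
    change f x = (x : ℤ) + (f s0 - s0)
    omega
  · refine ⟨FirstOrder.Language.Equiv.refl _ _, ?_⟩
    ext x
    exact (hne ⟨x⟩).elim

theorem fraisse {I : Type} [Countable I] (D : I → Set ℤ) (hD : ∀ k : ℤ, ∃ i, D i = {k}) :
    letI := str D; IsFraisseStructure (LI I) ℤ := by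
  let _ := str D
  refine ⟨inferInstance, ?_, inferInstance, inferInstance, ultra D hD⟩
  have : ∀ n, Countable ((LI I).Relations n) := by
    intro n
    by_cases hn : n = 2
    · subst hn
      have hs : Function.Surjective (fun i : I => (rr i : (LI I).Relations 2)) := by
        rintro ⟨i⟩
        exact ⟨i, rfl⟩
      exact hs.countable
    · have : IsEmpty ((LI I).Relations n) := ⟨by
        rintro ⟨i⟩
        exact hn rfl⟩
      infer_instance
  infer_instance

theorem autGroup_eq {I I' : Type} (D : I → Set ℤ) (D' : I' → Set ℤ)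
    (hD : ∀ k : ℤ, ∃ i, D i = {k}) (hD' : ∀ k : ℤ, ∃ i, D' i = {k}) :
    @AutGroup (LI I) ℤ (str D) = @AutGroup (LI I') ℤ (str D') := by
  ext σ
  constructor
  · rintro ⟨g, hg⟩
    refine ⟨tr D' (g 0), fun x => ?_⟩
    rw [hg]
    exact aut_tr D hD g x
  · rintro ⟨g, hg⟩
    refine ⟨tr D (g 0), fun x => ?_⟩
    rw [hg]
    exact aut_tr D' hD' g x

theorem topIso {I I' : Type} (D : I → Set ℤ) (D' : I' → Set ℤ)
    (hD : ∀ k : ℤ, ∃ i, D i = {k}) (hD' : ∀ k : ℤ, ∃ i, D' i = {k}) :
    @TopIso (LI I) (LI I') ℤ ℤ (str D) (str D') := by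
  refine ⟨MulEquiv.subgroupCongr (autGroup_eq D D' hD hD'), ?_, ?_⟩
  · rw [continuous_induced_rng]
    exact continuous_induced_dom
  · rw [continuous_induced_rng]
    exact continuous_induced_dom

/-- realisation of a complete type by an ultrafilter -/
theorem exists_ultra {L : FirstOrder.Language.{0, 0}} {M : Type} [L.Structure M] {n : ℕ}
    (q : TypeSpace L M n) : ∃ V : Ultrafilter (Fin n → M), ∀ φ, φ ∈ q.1 ↔
      ∀ᶠ x in (V : Filter (Fin n → M)), φ.Realize (Sum.elim id x) := by
  classical
  let B : Set (Set (Fin n → M)) := {s | ∃ φ ∈ q.1, s = {x | φ.Realize (Sum.elim id x)}}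
  have hne : (Filter.generate B).NeBot := by
    rw [Filter.generate_neBot_iff]
    intro t ht hfin
    have : ∀ s ∈ t, ∃ φ ∈ q.1, s = {x | φ.Realize (Sum.elim id x)} := fun s hs => ht hs
    choose! φ hφ1 hφ2 using this
    obtain ⟨x, hx⟩ := q.2.2 (hfin.toFinset.image φ) (by
      intro ψ hψ
      obtain ⟨s, hs, rfl⟩ := Finset.mem_image.1 hψ
      exact hφ1 s (hfin.mem_toFinset.1 hs))
    refine ⟨x, fun s hs => ?_⟩
    rw [hφ2 s hs]
    exact hx _ (Finset.mem_image_of_mem _ (hfin.mem_toFinset.2 hs))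
  have h1 : ∀ φ ∈ q.1, ∀ᶠ x in (Ultrafilter.of (Filter.generate B) : Filter (Fin n → M)),
      φ.Realize (Sum.elim id x) := fun φ hφ =>
    Ultrafilter.of_le _ (Filter.mem_generate_of_mem ⟨φ, hφ, rfl⟩)
  refine ⟨Ultrafilter.of (Filter.generate B), fun φ => ⟨h1 φ, fun h => ?_⟩⟩
  by_contra h2
  rw [← not_mem_iff] at h2
  obtain ⟨x, hx1, hx2⟩ := (h.and (h1 _ h2)).exists
  rw [FirstOrder.Language.Formula.realize_not] at hx2
  exact hx2 hx1

/-- the structure in which all `R_k` are named -/
abbrev D1 : ℤ → Set ℤ := fun k => {k}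

/-- the structure in which all `R_k` and the congruence modulo two are named -/
def D2 : Option ℤ → Set ℤ := fun i => match i with
  | none => {k | 2 ∣ k}
  | some k => {k}

/-- the ultrapower -/
abbrev NN {J : Type} (V : Ultrafilter J) : Type := (V : Filter J).Product (fun _ => ℤ)

/-- the class of a function -/
def cl {J : Type} (V : Ultrafilter J) (f : J → ℤ) : NN V := Quotient.mk _ f

theorem cl_eq {J : Type} (V : Ultrafilter J) (f g : J → ℤ) :
    cl V f = cl V g ↔ ∀ᶠ a in (V : Filter J), f a = g a := Quotient.eq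

/-- shifting the ultrapower -/
def shift {J : Type} (V : Ultrafilter J) (t : ℤ) : NN V → NN V :=
  Quotient.map (fun f a => f a + t) (by
    intro f g h
    change ∀ᶠ a in (V : Filter J), f a + t = g a + t
    have h' : ∀ᶠ a in (V : Filter J), f a = g a := h
    filter_upwards [h'] with a ha
    rw [ha])

theorem shift_cl {J : Type} (V : Ultrafilter J) (t : ℤ) (f : J → ℤ) :
    shift V t (cl V f) = cl V (fun a => f a + t) := rfl

theorem shift_shift {J : Type} (V : Ultrafilter J) (t s : ℤ) (z : NN V) :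
    shift V t (shift V s z) = shift V (s + t) z := by
  induction z using Quotient.inductionOn with
  | h f =>
  change cl V _ = cl V _
  rw [cl_eq]
  exact Filter.Eventually.of_forall fun a => add_assoc _ _ _

theorem shift_zero {J : Type} (V : Ultrafilter J) (z : NN V) : shift V 0 z = z := by
  induction z using Quotient.inductionOn with
  | h f =>
  change cl V _ = cl V f
  rw [cl_eq]
  exact Filter.Eventually.of_forall fun a => add_zero _

/-- standard elements -/
def IsStd {J : Type} (V : Ultrafilter J) (z : NN V) : Prop := ∃ m : ℤ, z = cl V (fun _ => m)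

theorem isStd_shift {J : Type} (V : Ultrafilter J) (t : ℤ) (z : NN V) :
    IsStd V (shift V t z) ↔ IsStd V z := by
  constructor
  · rintro ⟨m, hm⟩
    refine ⟨m + -t, ?_⟩
    have : shift V (-t) (shift V t z) = shift V (-t) (cl V (fun _ => m)) := by rw [hm]
    rw [shift_shift, add_neg_cancel, shift_zero] at this
    rw [this]
    rfl
  · rintro ⟨m, rfl⟩
    exact ⟨m + t, rfl⟩

open Classical in
/-- translate the standard part and fix everything else -/
noncomputable def sig {J : Type} (V : Ultrafilter J) (t : ℤ) (z : NN V) : NN V :=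
  if IsStd V z then shift V t z else z

theorem sig_std {J : Type} (V : Ultrafilter J) (t : ℤ) {z : NN V} (h : IsStd V z) :
    sig V t z = shift V t z := if_pos h

theorem sig_nonstd {J : Type} (V : Ultrafilter J) (t : ℤ) {z : NN V} (h : ¬ IsStd V z) :
    sig V t z = z := if_neg h

theorem sig_sig {J : Type} (V : Ultrafilter J) (t s : ℤ) (z : NN V) :
    sig V t (sig V s z) = sig V (s + t) z := by
  by_cases h : IsStd V z
  · rw [sig_std V s h, sig_std V t ((isStd_shift V s z).2 h), sig_std V _ h, shift_shift]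
  · rw [sig_nonstd V s h, sig_nonstd V t h, sig_nonstd V _ h]

theorem sig_zero {J : Type} (V : Ultrafilter J) (z : NN V) : sig V 0 z = z := by
  by_cases h : IsStd V z
  · rw [sig_std V _ h, shift_zero]
  · rw [sig_nonstd V _ h]

theorem sig_shift {J : Type} (V : Ultrafilter J) (t k : ℤ) (z : NN V) :
    sig V t (shift V k z) = shift V k (sig V t z) := by
  by_cases h : IsStd V z
  · rw [sig_std V t ((isStd_shift V k z).2 h), sig_std V t h, shift_shift, shift_shift, add_comm]
  · rw [sig_nonstd V t (fun h1 => h ((isStd_shift V k z).1 h1)), sig_nonstd V t h]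

/-- the permutation -/
noncomputable def sigE {J : Type} (V : Ultrafilter J) (t : ℤ) : Equiv.Perm (NN V) where
  toFun := sig V t
  invFun := sig V (-t)
  left_inv := by
    intro z
    rw [sig_sig, add_neg_cancel, sig_zero]
  right_inv := by
    intro z
    rw [sig_sig, neg_add_cancel, sig_zero]

open FirstOrder.Language in
theorem rel_NN {J : Type} (V : Ultrafilter J) (k : ℤ) (a b : NN V) :
    letI := str D1; FirstOrder.Language.Structure.RelMap (rr k) ![a, b] ↔ b = shift V k a := by
  let _ := str D1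
  induction a using Quotient.inductionOn with
  | h f =>
  induction b using Quotient.inductionOn with
  | h g =>
  have h1 := Ultraproduct.realize_formula_cast (u := V) (M := fun _ : J => ℤ)
    (Relations.formula₂ (rr k) (Term.var 0) (Term.var 1) : (LI ℤ).Formula (Fin 2)) ![f, g]
  rw [Formula.realize_rel₂] at h1
  have h2 : (FirstOrder.Language.Structure.RelMap (rr k) ![(Quotient.mk _ f : NN V), Quotient.mk _ g])
      ↔ ∀ᶠ a in (V : Filter J), g a - f a ∈ D1 k := by
    refine h1.trans ?_
    refine Filter.eventually_congr (Filter.Eventually.of_forall fun a => ?_)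
    rw [Formula.realize_rel₂]
    exact Iff.rfl
  refine h2.trans ?_
  change _ ↔ cl V g = cl V _
  rw [cl_eq]
  refine Filter.eventually_congr (Filter.Eventually.of_forall fun a => ?_)
  exact sub_eq_iff_eq_add'

open FirstOrder.Language in
/-- the automorphism -/
noncomputable def sigA {J : Type} (V : Ultrafilter J) (t : ℤ) :
    letI := str D1; NN V ≃[LI ℤ] NN V :=
  letI := str D1
  { toEquiv := sigE V t
    map_fun' := fun {n} f => (f : Empty).elim
    map_rel' := by
      rintro n ⟨k⟩ x
      have h1 : ((sigE V t) ∘ x : Fin 2 → NN V) = ![sig V t (x 0), sig V t (x 1)] := by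
        funext i
        fin_cases i <;> rfl
      have h2 : x = ![x 0, x 1] := by
        funext i
        fin_cases i <;> rfl
      change FirstOrder.Language.Structure.RelMap (rr k) ((sigE V t) ∘ x) ↔
        FirstOrder.Language.Structure.RelMap (rr k) x
      rw [h1, h2, rel_NN, rel_NN, ← sig_shift]
      exact (sigE V t).apply_eq_iff_eq }

open FirstOrder.Language in
/-- a type no coordinate of which is in `ℤ` is fixed -/
theorem fixed_of_new {n : ℕ} (q : @TypeSpace (LI ℤ) ℤ (str D1) n)
    (hq : ∀ (i : Fin n) (m : ℤ), (Term.equal (L := LI ℤ) (Term.var (Sum.inr i : ℤ ⊕ Fin n))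
      (Term.var (Sum.inl m))) ∉ q.1)
    (g : @FirstOrder.Language.Equiv (LI ℤ) ℤ ℤ (str D1) (str D1)) :
    @act (LI ℤ) ℤ (str D1) n g q = q := by
  classical
  let _ := str D1
  obtain ⟨V, hV⟩ := exists_ultra q
  have hg : ∀ x, g x = x + g 0 := aut_tr D1 (fun k => ⟨k, rfl⟩) g
  have hgs : ∀ x, g.symm x = x - g 0 := by
    intro x
    have h1 := hg (g.symm x)
    rw [g.apply_symm_apply] at h1
    omega
  have hV' : ∀ φ, φ ∈ q.1 ↔ φ.Realize (Sum.elim (fun m => cl V (fun _ => m))
      (fun i => cl V (fun x => x i))) := by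
    intro φ
    rw [hV φ]
    have h1 := Ultraproduct.realize_formula_cast (u := V) (M := fun _ : Fin n → ℤ => ℤ) φ
      (Sum.elim (fun m _ => m) (fun i x => x i))
    have h2 : (fun i => ((Sum.elim (fun m _ => m) (fun i x => x i) : ℤ ⊕ Fin n → (Fin n → ℤ) → ℤ) i :
        (V : Filter (Fin n → ℤ)).Product (fun _ => ℤ))) = Sum.elim (fun m => cl V (fun _ => m))
      (fun i => cl V (fun x => x i)) := by
      funext i
      rcases i with i | i <;> rfl
    rw [h2] at h1
    refine Iff.trans ?_ h1.symm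
    refine Filter.eventually_congr (Filter.Eventually.of_forall fun x => ?_)
    have h3 : (Sum.elim id x : ℤ ⊕ Fin n → ℤ) = fun i => (Sum.elim (fun m _ => m) (fun i x => x i) :
        ℤ ⊕ Fin n → (Fin n → ℤ) → ℤ) i x := by
      funext i
      rcases i with i | i <;> rfl
    rw [h3]
  have hnonstd : ∀ i : Fin n, ¬ IsStd V (cl V (fun x => x i)) := by
    rintro i ⟨m, hm⟩
    apply hq i m
    rw [hV', Formula.realize_equal]
    exact hm
  apply Subtype.ext
  ext φ
  rw [mem_act, hV', hV', Formula.realize_relabel,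
    ← FirstOrder.Language.StrongHomClass.realize_formula (sigA V (g 0)) φ]
  have h4 : (⇑(sigA V (g 0)) ∘ ((Sum.elim (fun m => cl V (fun _ => m))
      (fun i => cl V (fun x => x i)) : ℤ ⊕ Fin n → NN V) ∘ Sum.map g.symm id)) =
      Sum.elim (fun m => cl V (fun _ => m)) (fun i => cl V (fun x => x i)) := by
    funext i
    rcases i with m | i
    · change sig V (g 0) (cl V (fun _ => g.symm m)) = cl V (fun _ => m)
      rw [sig_std V _ ⟨_, rfl⟩, shift_cl, hgs]
      congr 1
      funext _
      omega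
    · change sig V (g 0) (cl V (fun x => x i)) = cl V (fun x => x i)
      exact sig_nonstd V _ (hnonstd i)
  rw [h4]

open FirstOrder.Language in
theorem fpt_M : @FPT (LI ℤ) ℤ (str D1) := by
  classical
  let _ := str D1
  intro n _ X hX hcl hinv
  obtain ⟨p, hp⟩ := hX
  let H : Ultrafilter ℕ := hyperfilter ℕ
  let P : ℕ → TypeSpace (LI ℤ) ℤ n := fun k => act (tr D1 k) p
  have hP : ∀ k, P k ∈ X := fun k => hinv _ _ hp
  have hq : IsCType (LI ℤ) ℤ n {φ | ∀ᶠ k in (H : Filter ℕ), φ ∈ (P k).1} := by
    constructor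
    · intro φ
      by_cases h : ∀ᶠ k in (H : Filter ℕ), φ ∈ (P k).1
      · exact Or.inl h
      · right
        rw [← Ultrafilter.eventually_not] at h
        change ∀ᶠ k in (H : Filter ℕ), φ.not ∈ (P k).1
        filter_upwards [h] with k hk
        exact (not_mem_iff _ _).2 hk
    · intro F hF
      have h1 : ∀ᶠ k in (H : Filter ℕ), ∀ φ ∈ F, φ ∈ (P k).1 := by
        rw [Filter.eventually_all_finset]
        exact hF
      obtain ⟨k, hk⟩ := h1.exists
      exact (P k).2.2 F hk
  let q : TypeSpace (LI ℤ) ℤ n := ⟨_, hq⟩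
  have hqX : q ∈ X := by
    by_contra hqX
    have hopen : IsOpen Xᶜ := hcl.isOpen_compl
    obtain ⟨φ, h1, h2⟩ := (isOpen_iff _).1 hopen q hqX
    have h3 : ∀ᶠ k in (H : Filter ℕ), φ ∈ (P k).1 := h1
    obtain ⟨k, hk⟩ := h3.exists
    exact h2 (P k) hk (hP k)
  refine ⟨q, hqX, fixed_of_new q ?_⟩
  intro i m hmem
  have h1 : ∀ᶠ k in (H : Filter ℕ), (Term.equal (L := LI ℤ) (Term.var (Sum.inr i : ℤ ⊕ Fin n))
      (Term.var (Sum.inl m))) ∈ (P k).1 := hmem
  have h2 : ∀ k : ℕ, (Term.equal (L := LI ℤ) (Term.var (Sum.inr i : ℤ ⊕ Fin n))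
      (Term.var (Sum.inl m))) ∈ (P k).1 ↔ (Term.equal (L := LI ℤ)
      (Term.var (Sum.inr i : ℤ ⊕ Fin n)) (Term.var (Sum.inl (m - k)))) ∈ p.1 := by
    intro k
    change _ ∈ p.1 ↔ _
    apply mem_congr
    intro x
    rw [Formula.realize_relabel, Formula.realize_equal, Formula.realize_equal]
    change x i = (tr D1 k).symm m ↔ x i = m - k
    exact Iff.rfl
  obtain ⟨k, hk⟩ := h1.exists
  have h3 : ∀ᶠ k' in (H : Filter ℕ), k' ≠ k := by
    have : (H : Filter ℕ) ≤ Filter.cofinite := hyperfilter_le_cofinite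
    exact this (by simp)
  obtain ⟨k', hk', hne⟩ := (h1.and h3).exists
  rw [h2] at hk hk'
  obtain ⟨x, hx⟩ := p.2.2 {Term.equal (L := LI ℤ) (Term.var (Sum.inr i : ℤ ⊕ Fin n))
      (Term.var (Sum.inl (m - k))), Term.equal (L := LI ℤ) (Term.var (Sum.inr i : ℤ ⊕ Fin n))
      (Term.var (Sum.inl (m - k')))} (by
    intro θ hθ
    rcases Finset.mem_insert.1 hθ with rfl | hθ
    · exact hk
    · rw [Finset.mem_singleton.1 hθ]
      exact hk')
  have h4 := hx _ (Finset.mem_insert_self _ _)
  have h5 := hx _ (Finset.mem_insert_of_mem (Finset.mem_singleton_self _))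
  rw [Formula.realize_equal] at h4 h5
  have h6 : x i = m - k := h4
  have h7 : x i = m - k' := h5
  apply hne
  omega

open FirstOrder.Language in
theorem not_fpt_M' : ¬ @FPT (LI (Option ℤ)) ℤ (str D2) := by
  classical
  let _ := str D2
  intro h
  let p0 : TypeSpace (LI (Option ℤ)) ℤ 1 := ⟨{φ | φ.Realize (Sum.elim id (fun _ => 0))}, by
    constructor
    · intro φ
      by_cases h : φ.Realize (Sum.elim id (fun _ => 0) : ℤ ⊕ Fin 1 → ℤ)
      · exact Or.inl h
      · exact Or.inr ((Formula.realize_not).2 h)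
    · intro F hF
      exact ⟨fun _ => 0, hF⟩⟩
  obtain ⟨p, -, hp⟩ := h 1 le_rfl Set.univ ⟨p0, Set.mem_univ _⟩ isClosed_univ
    (fun _ _ _ => Set.mem_univ _)
  let χ : ℤ → (LI (Option ℤ)).Formula (ℤ ⊕ Fin 1) := fun m =>
    Relations.formula₂ (rr none) (Term.var (Sum.inl m)) (Term.var (Sum.inr 0))
  have hχ : ∀ m (x : Fin 1 → ℤ), (χ m).Realize (Sum.elim id x) ↔ 2 ∣ x 0 - m := by
    intro m x
    change (Relations.formula₂ (rr none) (Term.var (Sum.inl m)) (Term.var (Sum.inr 0))).Realize _ ↔ _
    rw [Formula.realize_rel₂]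
    exact Iff.rfl
  have h1 : χ 1 ∈ p.1 ↔ χ 0 ∈ p.1 := by
    have h2 := hp (tr D2 1)
    have h3 : χ 1 ∈ (act (tr D2 1) p).1 ↔ χ 0 ∈ p.1 := by
      change _ ∈ p.1 ↔ _
      apply mem_congr
      intro x
      rw [Formula.realize_relabel, hχ]
      change (Relations.formula₂ (rr none) (Term.var (Sum.inl 1)) (Term.var (Sum.inr 0))).Realize _ ↔ _
      rw [Formula.realize_rel₂]
      change 2 ∣ x 0 - ((tr D2 1).symm 1) ↔ _
      rw [tr_symm_apply]
      norm_num
    rw [h2] at h3
    exact h3
  by_cases h2 : χ 0 ∈ p.1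
  · obtain ⟨x, hx⟩ := p.2.2 {χ 0, χ 1} (by
      intro θ hθ
      rcases Finset.mem_insert.1 hθ with rfl | hθ
      · exact h2
      · rw [Finset.mem_singleton.1 hθ]
        exact h1.2 h2)
    have h4 := hx _ (Finset.mem_insert_self _ _)
    have h5 := hx _ (Finset.mem_insert_of_mem (Finset.mem_singleton_self _))
    rw [hχ] at h4 h5
    omega
  · obtain ⟨x, hx⟩ := p.2.2 {(χ 0).not, (χ 1).not} (by
      intro θ hθ
      rcases Finset.mem_insert.1 hθ with rfl | hθ
      · exact (not_mem_iff _ _).2 h2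
      · rw [Finset.mem_singleton.1 hθ]
        exact (not_mem_iff _ _).2 (fun h3 => h2 (h1.1 h3)))
    have h4 := hx _ (Finset.mem_insert_self _ _)
    have h5 := hx _ (Finset.mem_insert_of_mem (Finset.mem_singleton_self _))
    rw [Formula.realize_not, hχ] at h4 h5
    omega

/-- There are Fraisse structures `M`, `M'` whose automorphism groups are isomorphic as topological
groups such that `M` has FPT and `M'` does not. -/
theorem result : ∃ (L L' : FirstOrder.Language.{0, 0}) (M M' : Type) (_ : L.Structure M)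
    (_ : L'.Structure M'), IsFraisseStructure L M ∧ IsFraisseStructure L' M' ∧
    TopIso L L' M M' ∧ FPT L M ∧ ¬ FPT L' M' :=
  ⟨LI ℤ, LI (Option ℤ), ℤ, ℤ, str D1, str D2, fraisse D1 (fun k => ⟨k, rfl⟩),
    fraisse D2 (fun k => ⟨some k, rfl⟩), topIso D1 D2 (fun k => ⟨k, rfl⟩) (fun k => ⟨some k, rfl⟩),
    fpt_M, not_fpt_M'⟩

end Pool.Agent.Results.MP_970e84_lc.NotDetermined
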